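import Pool.Agent.W268.Dy.StmB
import Pool.Agent.W64.Dy.En

/-!
# DB-E: weighted energy balance on the tree
-/

set_option autoImplicit false

namespace Pool.Agent.W500.DyB.E

open Finset Pool.Agent.W268.Dy Pool.Agent.W64.Dy

lemma loss_eq {K : ℕ} (q : ℝ) (x : Node K → ℝ) (n : ℕ) :
    loss q x n = 2 * q ^ (n + 1) * gT n x := rfl

theorem main : S_bE := by
  intro K ν μ q c N x
  induction N with
  | zero =>
    rw [Finset.sum_range_one, Finset.sum_range_one, Finset.sum_range_zero]
    unfold dE
    rw [der_eq, loss_eq]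
    have h : gsum 0 (fun w => 2 * x w * gain q x w) = 0 := by
      show 2 * x [] * gain q x [] = 0
      simp [gain]
    rw [h]
    unfold g2
    ring
  | succ N ih =>
    rw [Finset.sum_range_succ, ih, Finset.sum_range_succ (fun n => (c * μ) ^ n * g2 n x) (N + 1),
      Finset.sum_range_succ (fun n => c ^ n * q ^ (n + 1) * gT n x) N]
    unfold dE
    rw [der_eq, gain_eq, loss_eq, loss_eq]
    unfold g2
    rw [mul_pow]
    ring

end Pool.Agent.W500.DyB.E
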